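import Mathlib

set_option autoImplicit false

namespace Pool.Agent.Results.MP_14365a_gt.Beta

open Set Filter Topology

/-- The ring `T'(X)`, as a set of functions. -/
def Tone (X : Type*) [TopologicalSpace X] : Set (X → ℝ) :=
  {f | ∃ U : Set X, IsOpen U ∧ Dense U ∧ ContinuousOn f U}

/-- The ring `T''(X)`, as a set of functions. -/
def Ttwo (X : Type*) [TopologicalSpace X] : Set (X → ℝ) :=
  {f | ∃ h : X → ℝ, Continuous h ∧ Dense {x | h x ≠ 0} ∧ ContinuousOn f {x | h x ≠ 0}}

/-- Every closed set is a zero set. -/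
def PerfNormal (X : Type*) [TopologicalSpace X] : Prop :=
  ∀ A : Set X, IsClosed A → ∃ h : X → ℝ, Continuous h ∧ A = {x | h x = 0}

lemma pure_open (n : ℕ) : IsOpen ({pure n} : Set (Ultrafilter ℕ)) := by
  convert ultrafilter_isOpen_basic ({n} : Set ℕ) using 1
  ext u
  simp only [mem_singleton_iff, mem_ofPred_eq]
  constructor
  · rintro rfl; simp
  · intro h
    exact Ultrafilter.eq_pure_of_finite_mem (finite_singleton n) h |>.elim fun a ha => by
      rw [ha.2, mem_singleton_iff.1 ha.1]

lemma val_eq {h : Ultrafilter ℕ → ℝ} (hh : Continuous h) (u : Ultrafilter ℕ) :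
    Tendsto (fun n => h (pure n)) u (𝓝 (h u)) :=
  (hh.tendsto u).comp (by
    have := ultrafilter_comap_pure_nhds u
    refine tendsto_iff_comap.2 ?_
    intro S hS
    obtain ⟨T, hT, hTS⟩ := mem_comap.1 hS
    obtain ⟨_, ⟨A, rfl⟩, hu, hA⟩ := ultrafilterBasis_is_basis.mem_nhds_iff.1 hT
    exact mem_of_superset hu fun n hn => hTS (hA (show A ∈ (pure n : Ultrafilter ℕ) by simpa using hn)))

theorem result : ∃ (X : Type) (_ : TopologicalSpace X), CompactSpace X ∧ T2Space X ∧
    ¬ PerfNormal X ∧ Tone X = Ttwo X := by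
  refine ⟨Ultrafilter ℕ, inferInstance, inferInstance, inferInstance, fun H => ?_, ?_⟩
  · obtain ⟨h, hh, e⟩ := H {hyperfilter ℕ} isClosed_singleton
    have h0 : h (hyperfilter ℕ) = 0 := by
      have : hyperfilter ℕ ∈ {x | h x = 0} := e ▸ mem_singleton _
      exact this
    have ht := val_eq hh (hyperfilter ℕ)
    rw [h0] at ht
    have hfr : ∀ k : ℕ, ∃ᶠ n in atTop, |h (pure n)| < 1 / ((k : ℝ) + 1) := by
      intro k
      have h1 : ∀ᶠ n in (hyperfilter ℕ : Filter ℕ), |h (pure n)| < 1 / ((k : ℝ) + 1) := by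
        have := ht.abs
        rw [abs_zero] at this
        exact this.eventually (gt_mem_nhds (by positivity))
      exact h1.frequently.filter_mono Nat.hyperfilter_le_atTop
    obtain ⟨φ, hφ, hk⟩ := extraction_forall_of_frequently hfr
    have lim : Tendsto (fun k => h (pure (φ k))) atTop (𝓝 0) :=
      squeeze_zero_norm (fun k => (hk k).le) tendsto_one_div_add_atTop_nhds_zero_nat
    have key : ∀ ψ : ℕ → ℕ, Tendsto ψ atTop atTop → range (φ ∘ ψ) ∈ hyperfilter ℕ := by
      intro ψ hψ
      have h1 := val_eq hh ((hyperfilter ℕ).map (φ ∘ ψ))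
      rw [Ultrafilter.coe_map, tendsto_map'_iff] at h1
      have h2 := (lim.comp hψ).mono_left Nat.hyperfilter_le_atTop
      have h3 : (hyperfilter ℕ).map (φ ∘ ψ) ∈ {x | h x = 0} := tendsto_nhds_unique h1 h2
      rw [← e, mem_singleton_iff] at h3
      rw [← h3]
      exact range_mem_map
    have a := key (fun k => 2 * k) (tendsto_atTop_mono (fun k => by simp only [id]; omega) tendsto_id)
    have b := key (fun k => 2 * k + 1) (tendsto_atTop_mono (fun k => by simp only [id]; omega) tendsto_id)
    obtain ⟨_, ⟨i, rfl⟩, ⟨j, hj⟩⟩ := Ultrafilter.nonempty_of_mem (inter_mem a b)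
    have : 2 * j + 1 = 2 * i := hφ.injective hj
    omega
  · apply Subset.antisymm
    · intro f _
      let g : ℕ → Icc (0 : ℝ) 1 := fun n => ⟨1 / ((n : ℝ) + 1), by positivity, by
        rw [div_le_one (by positivity)]; linarith [n.cast_nonneg (α := ℝ)]⟩
      let h : Ultrafilter ℕ → ℝ := fun u => (Ultrafilter.extend g u).1
      have hh : Continuous h := continuous_subtype_val.comp (continuous_ultrafilter_extend g)
      have hp : ∀ n, h (pure n) = 1 / ((n : ℝ) + 1) := fun n =>
        congrArg Subtype.val (congrFun (ultrafilter_extend_extends g) n)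
      have e : {x | h x ≠ 0} = range pure := by
        apply Subset.antisymm
        · intro u hu
          rcases u.le_cofinite_or_eq_pure with h1 | ⟨n, rfl⟩
          · exfalso
            have h2 := val_eq hh u
            simp only [hp] at h2
            rw [Nat.cofinite_eq_atTop] at h1
            exact hu (tendsto_nhds_unique h2 (tendsto_one_div_add_atTop_nhds_zero_nat.mono_left h1))
          · exact ⟨n, rfl⟩
        · rintro _ ⟨n, rfl⟩
          show h (pure n) ≠ 0
          rw [hp]; positivity
      refine ⟨h, hh, e ▸ denseRange_pure, ?_⟩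
      rw [e]
      haveI : DiscreteTopology (range (pure : ℕ → Ultrafilter ℕ)) := by
        rw [discreteTopology_iff_isOpen_singleton]
        rintro ⟨_, n, rfl⟩
        exact isOpen_induced_iff.2 ⟨_, pure_open n, by ext z; simp [Subtype.ext_iff]⟩
      exact continuousOn_iff_continuous_restrict.2 continuous_of_discreteTopology
    · rintro f ⟨h, hh, h1, h2⟩
      exact ⟨_, isOpen_ne_fun hh continuous_const, h1, h2⟩

end Pool.Agent.Results.MP_14365a_gt.Beta
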